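import Pool.Agent.Helper80.SI.StN

set_option autoImplicit false

/-! Project SI, module N10 (helper83): finite supports. -/

namespace Pool.Agent.Helper83.SI

open Pool.Agent.Helper99.SI Pool.Agent.Helper80.SI Filter Topology

theorem n10_ev_zero {n : ℕ} {L : Type} [Ring L] [Algebra ℂ L] [StarRing L] (D : Sys n L) (t : ℂ) (v : L) (l : ℤ)
    (h : ∀ j, D.g.p l (D.b.p j v) = 0) : D.g.p l (D.b.ev t v) = 0 := by
  show D.g.p l (∑ᶠ j : ℤ, t ^ j • D.b.p j v) = 0
  rw [map_finsum (D.g.p l) (D.b.fin' (fun j => t ^ j) v)]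
  have : ∀ j : ℤ, D.g.p l (t ^ j • D.b.p j v) = 0 := by
    intro j
    rw [map_smul, h j, smul_zero]
  simp only [this, finsum_zero]

theorem n10_bound {L : Type} [Ring L] [Algebra ℂ L] [StarRing L] (g : ZGr L) (y : L) :
    ∃ e : ℕ, ∀ j : ℤ, g.p j y ≠ 0 → -(e : ℤ) ≤ j ∧ j ≤ e := by
  obtain ⟨b, hb⟩ := (g.fin y).bddAbove
  obtain ⟨a, ha⟩ := (g.fin y).bddBelow
  refine ⟨(max |a| |b|).toNat, fun j hj => ?_⟩
  have h1 : j ≤ b := hb hj
  have h2 : a ≤ j := ha hj
  have h3 : ((max |a| |b|).toNat : ℤ) = max |a| |b| := Int.toNat_of_nonneg (le_max_of_le_left (abs_nonneg a))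
  rw [h3]
  have h4 := le_max_left |a| |b|
  have h5 := le_max_right |a| |b|
  have h6 := neg_abs_le a
  have h7 := le_abs_self b
  constructor <;> omega

theorem hN10 (h1 : StA0) (h2 : StA2) (h3 : StK2) (h4 : StK3) : StN10 := by
  intro n L _ _ _ _ _ D m c y hc
  obtain ⟨e, he⟩ := n10_bound D.g y
  obtain ⟨k, hk⟩ := D.G2 (c.length + e + 1)
  have tz : D.tau c 0 = 0 := by
    have := (h3 n L D c hc).2.2.1 0 0
    rwa [zero_smul, zero_mul] at this
  have key : ∀ z : L, (∀ i : ℤ, D.g.p i z * D.g.p (c.length - i) y = 0) → D.tau c (z * y) = 0 := by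
    intro z hz
    have e1 := (h4 n L D c hc).2 (c.length : ℤ) (z * y)
    rw [if_pos rfl] at e1
    rw [← e1, (h1 L D.g).1 (c.length : ℤ) z y]
    simp only [hz, finsum_zero]
    exact tz
  refine ⟨max e k, fun t i hi => ?_⟩
  rcases i with (ν | ν) | a
  · have hlen : max e k < ν.length := hi
    show D.tau c ((if m.M ≤ ν.length then D.b.ev (t : ℂ) (D.w ν) else 0) * y) = 0
    split_ifs
    · apply key
      intro i
      by_cases hil : i < (c.length : ℤ) + e + 1
      · rw [n10_ev_zero D t (D.w ν) i (fun j => hk ν (by omega) j i (by exact_mod_cast hil)), zero_mul]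
      · have : D.g.p ((c.length : ℤ) - i) y = 0 := by
          by_contra hne
          have := he _ hne
          omega
        rw [this, mul_zero]
    · rw [zero_mul]
      exact tz
  · have hlen : max e k < ν.length := hi
    show D.tau c ((if m.M ≤ ν.length then star (D.w ν) else 0) * y) = 0
    split_ifs
    · apply key
      intro i
      have h5 := h2 n L D i [] ν
      have hw : D.w ([] : W n) = 1 := by simp [Sys.w, wd]
      rw [hw, one_mul] at h5
      rw [h5]
      split_ifs with hi2
      · have : D.g.p ((c.length : ℤ) - i) y = 0 := by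
          by_contra hne
          have := he _ hne
          simp only [List.length_nil] at hi2
          omega
        rw [this, mul_zero]
      · rw [zero_mul]
    · rw [zero_mul]
      exact tz
  · exact absurd hi (by simp [ilen])

end Pool.Agent.Helper83.SI
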