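import Pool.Agent.Helper80.SI.StN

set_option autoImplicit false

/-! Project SI, module N19 (helper83): summability. -/

namespace Pool.Agent.Helper83.SI

open Pool.Agent.Helper99.SI Pool.Agent.Helper80.SI Filter Topology

/-- The words of length g. -/
noncomputable def wlen (n g : ℕ) : Finset (W n) := (List.finite_length_eq (Fin n) g).toFinset

theorem mem_wlen {n g : ℕ} {ν : W n} : ν ∈ wlen n g ↔ ν.length = g := by
  unfold wlen
  simp

/-- The coefficients of the words of length g. -/
noncomputable def ug {n r : ℕ} (z : Idx n r → ℂ) (g : ℕ) : W n →₀ ℂ :=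
  Finsupp.onFinset (wlen n g) (fun ν => if ν.length = g then z (Sum.inl (Sum.inl ν)) else 0) (by
    intro ν h
    rw [mem_wlen]
    by_contra hne
    exact h (if_neg hne))

theorem n19_bound {L : Type} [Ring L] [Algebra ℂ L] [StarRing L] (g : ZGr L) (y : L) :
    ∃ e : ℕ, ∀ j : ℤ, g.p j y ≠ 0 → j ≤ e := by
  obtain ⟨b, hb⟩ := (g.fin y).bddAbove
  refine ⟨b.toNat, fun j hj => ?_⟩
  have h1 : j ≤ b := hb hj
  have h3 : b ≤ (b.toNat : ℤ) := Int.self_le_toNat b
  omega

theorem hN19 (h1 : StA0) (h2 : StA2) (h3 : StA3) : StN19 := by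
  intro n L _ _ _ _ _ D X0 m z hm hz
  have hw1 : D.w ([] : W n) = 1 := by simp [Sys.w, wd]
  -- a bound for the degrees of the further basis vectors
  have hb : ∃ K0 : ℕ, ∀ a : Fin m.r, ∀ j : ℤ, D.g.p j (m.piT D 1 (Sum.inr a)) ≠ 0 → j ≤ K0 := by
    choose e he using fun a : Fin m.r => n19_bound D.g (m.piT D 1 (Sum.inr a))
    refine ⟨∑ a, e a, fun a j hj => (he a j hj).trans ?_⟩
    exact_mod_cast Finset.single_le_sum (f := e) (fun _ _ => Nat.zero_le _) (Finset.mem_univ a)
  obtain ⟨K0, hK0⟩ := hb
  -- the components of large degree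
  have hcomp : ∀ g : ℕ, K0 + m.M < g → comp D m z g = D.emb (ug z g) := by
    intro g hg
    unfold comp
    have hval : ∀ i : Idx n m.r, z i • D.g.p g (m.piT D 1 i) ≠ 0 →
        ∃ ν : W n, ν.length = g ∧ i = Sum.inl (Sum.inl ν) := by
      intro i hi
      rcases i with (ν | ν) | a
      · refine ⟨ν, ?_, rfl⟩
        by_contra hne
        apply hi
        have : D.g.p g (m.piT D 1 (Sum.inl (Sum.inl ν))) = 0 := by
          show D.g.p g (if m.M ≤ ν.length then D.b.ev ((1 : ℝ) : ℂ) (D.w ν) else 0) = 0
          split_ifs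
          · rw [Complex.ofReal_one, (h1 L D.b).2.2.2.2.1]
            have h5 := h2 n L D g ν []
            rw [hw1, star_one, mul_one] at h5
            rw [h5, if_neg]
            simp only [List.length_nil]
            omega
          · exact map_zero _
        rw [this, smul_zero]
      · exfalso
        apply hi
        have : D.g.p g (m.piT D 1 (Sum.inl (Sum.inr ν))) = 0 := by
          show D.g.p g (if m.M ≤ ν.length then star (D.w ν) else 0) = 0
          split_ifs
          · have h5 := h2 n L D g [] ν
            rw [hw1, one_mul] at h5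
            rw [h5, if_neg]
            simp only [List.length_nil]
            omega
          · exact map_zero _
        rw [this, smul_zero]
      · exfalso
        apply hi
        have : D.g.p g (m.piT D 1 (Sum.inr a)) = 0 := by
          by_contra hne
          have := hK0 a _ hne
          omega
        rw [this, smul_zero]
    have hinj : Set.InjOn (fun ν : W n => (Sum.inl (Sum.inl ν) : Idx n m.r)) (wlen n g : Set (W n)) := by
      intro a _ b _ hab
      exact Sum.inl_injective (Sum.inl_injective hab)
    classical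
    rw [finsum_eq_sum_of_support_subset (s := (wlen n g).image fun ν : W n => (Sum.inl (Sum.inl ν) : Idx n m.r))]
    · rw [Finset.sum_image hinj]
      unfold Sys.emb
      rw [Finsupp.linearCombination_apply, ug, Finsupp.onFinset_sum _ (fun a => zero_smul ℂ (D.w a))]
      apply Finset.sum_congr rfl
      intro ν hν
      rw [mem_wlen] at hν
      rw [if_pos hν]
      congr 1
      show D.g.p g (if m.M ≤ ν.length then D.b.ev ((1 : ℝ) : ℂ) (D.w ν) else 0) = D.w ν
      rw [if_pos (by omega), Complex.ofReal_one, (h1 L D.b).2.2.2.2.1]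
      have h5 := h2 n L D g ν []
      rw [hw1, star_one, mul_one] at h5
      rw [h5, if_pos]
      simp only [List.length_nil]
      omega
    · intro i hi
      obtain ⟨ν, h5, h6⟩ := hval i hi
      rw [Finset.coe_image]
      exact ⟨ν, by simpa [mem_wlen] using h5, h6.symm⟩
  have hmgf : ∀ g : ℕ, K0 + m.M < g → mgf D m z g = ug z g := by
    intro g hg
    unfold mgf
    rw [if_neg (by omega), hcomp g hg, (h3 n L D).2.1]
  have hnsq : ∀ g : ℕ, K0 + m.M < g → nsq (mgf D m z g) = ∑ ν ∈ wlen n g, ‖z (Sum.inl (Sum.inl ν))‖ ^ 2 := by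
    intro g hg
    rw [hmgf g hg]
    unfold nsq
    rw [ug, Finsupp.onFinset_sum _ (fun a => by simp)]
    apply Finset.sum_congr rfl
    intro ν hν
    rw [mem_wlen] at hν
    rw [if_pos hν]
  rw [← summable_nat_add_iff (K0 + m.M + 1)]
  have hsum : Summable fun ν : W n => ‖z (Sum.inl (Sum.inl ν))‖ ^ 2 :=
    hz.comp_injective (i := fun ν : W n => (Sum.inl (Sum.inl ν) : Idx n m.r))
      (fun a b hab => Sum.inl_injective (Sum.inl_injective hab))
  refine summable_of_sum_range_le (c := ∑' ν : W n, ‖z (Sum.inl (Sum.inl ν))‖ ^ 2) ?_ ?_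
  · intro g
    rw [hnsq _ (by omega)]
    exact Finset.sum_nonneg fun _ _ => by positivity
  · intro N
    classical
    have e1 : ∑ g ∈ Finset.range N, nsq (mgf D m z (g + (K0 + m.M + 1))) =
        ∑ ν ∈ (Finset.range N).biUnion (fun g => wlen n (g + (K0 + m.M + 1))), ‖z (Sum.inl (Sum.inl ν))‖ ^ 2 := by
      rw [Finset.sum_biUnion]
      · apply Finset.sum_congr rfl
        intro g _
        exact hnsq _ (by omega)
      · intro a _ b _ hab
        rw [Function.onFun, Finset.disjoint_left]
        intro ν h5 h6
        rw [mem_wlen] at h5 h6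
        exact hab (by omega)
    rw [e1]
    exact hsum.sum_le_tsum _ (fun _ _ => by positivity)

end Pool.Agent.Helper83.SI
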